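import Mathlib

set_option autoImplicit false

open Polynomial

namespace Pool.Agent.H603Z.Dir

section Weight
variable {F : Type*} [Field F]

/-- weighted degree bound for a polynomial in two variables -/
def Wt (P : F[X][X]) (m : ℕ) : Prop := ∀ k : ℕ, (P.coeff k).degree + (k : WithBot ℕ) ≤ (m : WithBot ℕ)

lemma Wt.sub {P Q : F[X][X]} {m : ℕ} (hP : Wt P m) (hQ : Wt Q m) : Wt (P - Q) m := by
  intro k
  rw [coeff_sub]
  have h := degree_sub_le (P.coeff k) (Q.coeff k)
  rcases le_max_iff.mp h with h | h
  · exact le_trans (add_le_add_left h _) (hP k)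
  · exact le_trans (add_le_add_left h _) (hQ k)

lemma Wt.mul {P Q : F[X][X]} {m n : ℕ} (hP : Wt P m) (hQ : Wt Q n) : Wt (P * Q) (m + n) := by
  intro k
  rw [coeff_mul]
  by_cases h0 : (∑ x ∈ Finset.HasAntidiagonal.antidiagonal k, P.coeff x.1 * Q.coeff x.2) = 0
  · rw [h0]; simp
  have h := degree_sum_le (Finset.HasAntidiagonal.antidiagonal k) (fun x => P.coeff x.1 * Q.coeff x.2)
  have hne : (Finset.HasAntidiagonal.antidiagonal k).Nonempty := ⟨(0, k), by simp⟩
  obtain ⟨x, hx, hx2⟩ := Finset.exists_mem_eq_sup _ hne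
    (fun x : ℕ × ℕ => (P.coeff x.1 * Q.coeff x.2).degree)
  rw [hx2] at h
  have hk : x.1 + x.2 = k := by simpa using hx
  have h1 := hP x.1
  have h2 := hQ x.2
  calc _ ≤ (P.coeff x.1 * Q.coeff x.2).degree + (k : WithBot ℕ) := add_le_add_left h _
    _ ≤ ((P.coeff x.1).degree + (Q.coeff x.2).degree) + (k : WithBot ℕ) :=
        add_le_add_left (degree_mul_le _ _) _
    _ = ((P.coeff x.1).degree + (x.1 : WithBot ℕ)) + ((Q.coeff x.2).degree + (x.2 : WithBot ℕ)) := by
        rw [← hk]; push_cast; ac_rfl
    _ ≤ (m : WithBot ℕ) + (n : WithBot ℕ) := add_le_add h1 h2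
    _ = ((m + n : ℕ) : WithBot ℕ) := by push_cast; rfl

lemma Wt.C {c : F[X]} {m : ℕ} (h : c.degree ≤ (m : WithBot ℕ)) : Wt (C c) m := by
  intro k
  rw [coeff_C]
  split_ifs with hk
  · subst hk; simpa using h
  · simp

lemma Wt.X : Wt (X : F[X][X]) 1 := by
  intro k
  rw [coeff_X]
  split_ifs with hk
  · subst hk; simp
  · simp

lemma Wt.one : Wt (1 : F[X][X]) 0 := by
  have := Wt.C (F := F) (c := 1) (m := 0) (by simp)
  simpa using this

lemma Wt.prod {ι : Type*} (s : Finset ι) (l : ι → F[X]) (hl : ∀ i, (l i).degree ≤ 1) :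
    Wt (∏ i ∈ s, (Polynomial.X - Polynomial.C (l i))) s.card := by
  classical
  induction s using Finset.induction_on with
  | empty => simpa using Wt.one
  | insert a s ha ih =>
    rw [Finset.prod_insert ha, Finset.card_insert_of_notMem ha, add_comm]
    exact Wt.mul (Wt.sub Wt.X (Wt.C (by simpa using hl a))) ih

lemma exists_rem (R : F[X][X]) (K : ℕ) (hK : 1 ≤ K) (hm : R.Monic) (hd : R.natDegree = K)
    (hW : Wt R K) (m : ℕ) :
    ∃ Q P : F[X][X], Polynomial.X ^ m = R * Q + P ∧ (∀ k, K ≤ k → P.coeff k = 0) ∧ Wt P m := by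
  induction m with
  | zero =>
    refine ⟨0, 1, by simp, ?_, Wt.one⟩
    intro k hk
    rw [coeff_one]; rw [if_neg (by omega)]
  | succ m ih =>
    obtain ⟨Q, P, h1, h2, h3⟩ := ih
    refine ⟨Polynomial.X * Q + Polynomial.C (P.coeff (K - 1)),
      Polynomial.X * P - Polynomial.C (P.coeff (K - 1)) * R, ?_, ?_, ?_⟩
    · rw [pow_succ, h1]; ring
    · intro k hk
      obtain ⟨j, rfl⟩ : ∃ j, k = j + 1 := ⟨k - 1, by omega⟩
      rw [coeff_sub, coeff_X_mul, coeff_C_mul]
      rcases eq_or_lt_of_le hk with h | h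
      · have hj : j = K - 1 := by omega
        have : R.coeff (j + 1) = 1 := by
          rw [← h, ← hd]; exact hm
        rw [this, hj]; ring
      · rw [h2 j (by omega), coeff_eq_zero_of_natDegree_lt (p := R) (by omega)]; ring
    · apply Wt.sub
      · rw [add_comm]; exact Wt.mul Wt.X h3
      · by_cases hc : P.coeff (K - 1) = 0
        · rw [hc]; intro k; simp
        · have h4 := h3 (K - 1)
          rw [degree_eq_natDegree hc] at h4
          have h5 : (P.coeff (K - 1)).natDegree + (K - 1) ≤ m := by exact_mod_cast h4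
          have h6 : Wt (Polynomial.C (P.coeff (K - 1))) (m + 1 - K) := by
            apply Wt.C
            rw [degree_eq_natDegree hc]
            exact_mod_cast (by omega : (P.coeff (K - 1)).natDegree ≤ m + 1 - K)
          have h7 := Wt.mul h6 hW
          have h8 : m + 1 - K + K = m + 1 := by omega
          rwa [h8] at h7

end Weight

section Core
variable {p : ℕ} [Fact p.Prime]

lemma prod_dvd_Xp {ι : Type*} (s : Finset ι) (v : ι → ZMod p) (hv : Set.InjOn v s) :
    (∏ i ∈ s, (X - C (v i))) ∣ (X ^ p - X : (ZMod p)[X]) := by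
  classical
  apply Finset.prod_dvd_of_coprime
  · intro i hi j hj hij
    have : v i ≠ v j := fun h => hij (hv hi hj h)
    exact isCoprime_X_sub_C_of_isUnit_sub (sub_ne_zero.mpr this).isUnit
  · intro i _
    rw [dvd_iff_isRoot]
    simp [ZMod.pow_card]

lemma core {ι : Type*} [DecidableEq ι] (s : Finset ι) (x y : ι → ZMod p) (hs : s.card ≤ p)
    (U : Finset (ZMod p)) (hU : ∀ t ∈ U, Set.InjOn (fun i => y i - t * x i) s)
    (hni : ¬ Set.InjOn y s) (hnc : ∃ i ∈ s, ∃ j ∈ s, y i ≠ y j) :
    (s.image y).card + U.card ≤ p ∧ s.card + 1 + U.card ≤ p + (s.image y).card := by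
  classical
  have hp : p.Prime := Fact.out
  obtain ⟨i0, hi0, j0, hj0, hij0⟩ := hnc
  have hr2 : 2 ≤ (s.image y).card := by
    rw [Nat.succ_le_iff, Finset.one_lt_card]
    exact ⟨y i0, Finset.mem_image_of_mem _ hi0, y j0, Finset.mem_image_of_mem _ hj0, hij0⟩
  have hrs : (s.image y).card ≤ s.card := Finset.card_image_le
  have hK : 2 ≤ s.card := le_trans hr2 hrs
  have hU0 : (0 : ZMod p) ∉ U := by
    intro h; apply hni; simpa using hU 0 h
  have hUc : U.card < p := by
    have : U ⊂ Finset.univ := by
      rw [Finset.ssubset_univ_iff]; intro h; rw [h] at hU0; simp at hU0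
    have := Finset.card_lt_card this
    simpa [ZMod.card] using this
  set l : ι → (ZMod p)[X] := fun i => C (y i) - C (x i) * X with hl
  have hld : ∀ i, (l i).degree ≤ 1 := by
    intro i
    simp only [hl]
    compute_degree
  set R : (ZMod p)[X][X] := ∏ i ∈ s, (X - C (l i)) with hR
  have hRm : R.Monic := monic_prod_of_monic _ _ (fun i _ => monic_X_sub_C _)
  have hRd : R.natDegree = s.card := by
    rw [hR, natDegree_prod_of_monic _ _ (fun i _ => monic_X_sub_C _)]; simp
  obtain ⟨Q, P, h1, h2, h3⟩ := exists_rem R s.card (by omega) hRm hRd (Wt.prod s l hld) p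
  have hmap : ∀ t : ZMod p, (X : (ZMod p)[X]) ^ p =
      (∏ i ∈ s, (X - C (y i - t * x i))) * Q.map (evalRingHom t) + P.map (evalRingHom t) := by
    intro t
    have := congrArg (Polynomial.map (evalRingHom t)) h1
    rw [Polynomial.map_pow, map_X, Polynomial.map_add, Polynomial.map_mul, hR,
      Polynomial.map_prod] at this
    rw [this]
    congr 2
    apply Finset.prod_congr rfl
    intro i _
    rw [Polynomial.map_sub, map_X, map_C]
    congr 2
    simp only [hl, coe_evalRingHom, eval_sub, eval_mul, eval_C, eval_X]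
    ring
  have hPd : ∀ t : ZMod p, (P.map (evalRingHom t)).natDegree < s.card := by
    intro t
    have : (P.map (evalRingHom t)).natDegree ≤ s.card - 1 := by
      rw [natDegree_le_iff_coeff_eq_zero]
      intro N hN
      rw [coeff_map, h2 N (by omega)]; simp
    omega
  have hPU : ∀ t ∈ U, P.map (evalRingHom t) = X := by
    intro t ht
    have hd := prod_dvd_Xp s (fun i => y i - t * x i) (hU t ht)
    have hd2 : (∏ i ∈ s, (X - C (y i - t * x i))) ∣ (P.map (evalRingHom t) - X) := by
      have e : P.map (evalRingHom t) - X = (X ^ p - X) -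
          (∏ i ∈ s, (X - C (y i - t * x i))) * Q.map (evalRingHom t) := by
        linear_combination (-1 : (ZMod p)[X]) * hmap t
      rw [e]
      exact dvd_sub hd (dvd_mul_right _ _)
    have hz : P.map (evalRingHom t) - X = 0 := by
      apply eq_zero_of_dvd_of_natDegree_lt hd2
      rw [natDegree_prod_of_monic _ _ (fun i _ => monic_X_sub_C _)]
      have h4 := natDegree_sub_le (P.map (evalRingHom t)) X
      have h5 := hPd t
      simp only [natDegree_X_sub_C, Finset.sum_const, smul_eq_mul, mul_one, natDegree_X] at h4 ⊢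
      omega
    exact sub_eq_zero.mp hz
  have hPk : ∀ k, p < k + U.card → P.coeff k = 0 := by
    intro k hk
    by_contra hne
    have h4 := h3 k
    rw [degree_eq_natDegree hne] at h4
    have h5 : (P.coeff k).natDegree + k ≤ p := by exact_mod_cast h4
    apply hne
    apply eq_zero_of_natDegree_lt_card_of_eval_eq_zero' _ U
    · intro t ht
      have := congrArg (fun q => q.coeff k) (hPU t ht)
      simp only [coeff_map, coe_evalRingHom, coeff_X] at this
      rw [this, if_neg (by omega)]
    · omega
  set ρ := P.map (evalRingHom (0 : ZMod p)) with hρ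
  have hρd : ρ.natDegree + U.card ≤ p := by
    have : ρ.natDegree ≤ p - U.card := by
      rw [natDegree_le_iff_coeff_eq_zero]
      intro N hN
      rw [hρ, coeff_map, hPk N (by omega)]; simp
    omega
  have hR0 : (∏ i ∈ s, (X - C (y i))) ∣ (X ^ p - ρ) := by
    have e := hmap 0
    simp only [zero_mul, sub_zero] at e
    refine ⟨Q.map (evalRingHom 0), ?_⟩
    conv_lhs => rw [e]
    ring
  have hpow : ∀ v : ZMod p, (X - C v) ^ (s.filter (fun i => y i = v)).card ∣ (X ^ p - ρ) := by
    intro v
    refine dvd_trans ?_ hR0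
    have : (X - C v) ^ (s.filter (fun i => y i = v)).card =
        ∏ i ∈ s.filter (fun i => y i = v), (X - C (y i)) := by
      rw [Finset.prod_congr rfl (g := fun _ => X - C v)]
      · simp
      · intro i hi; rw [(Finset.mem_filter.mp hi).2]
    rw [this]
    exact Finset.prod_dvd_prod_of_subset _ _ _ (Finset.filter_subset _ _)
  have hρX : ρ - X ≠ 0 := by
    intro h
    have h' : ρ = X := sub_eq_zero.mp h
    apply hni
    intro i hi j hj hij
    by_contra hne
    have hc : 2 ≤ (s.filter (fun k => y k = y i)).card := by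
      rw [Nat.succ_le_iff, Finset.one_lt_card]
      exact ⟨i, by simpa using hi, j, by simpa using ⟨hj, hij.symm⟩, hne⟩
    have h4 : (X - C (y i)) ^ 2 ∣ (X ^ p - ρ) := dvd_trans (pow_dvd_pow _ hc) (hpow (y i))
    have h5 := pow_sub_one_dvd_derivative_of_pow_dvd h4
    rw [h'] at h5
    simp only [derivative_sub, derivative_X_pow, derivative_X, CharP.cast_eq_zero, map_zero,
      zero_mul, zero_sub, Nat.add_one_sub_one, pow_one, dvd_neg] at h5
    exact not_isUnit_X_sub_C _ (isUnit_of_dvd_one h5)
  have hr : (s.image y).card ≤ ρ.natDegree := by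
    have h4 : (s.image y).card ≤ (ρ - X).natDegree := by
      by_contra hlt
      apply hρX
      apply eq_zero_of_natDegree_lt_card_of_eval_eq_zero' _ (s.image y)
      · intro v hv
        obtain ⟨i, hi, rfl⟩ := Finset.mem_image.mp hv
        have h5 : (X - C (y i)) ∣ (X ^ p - ρ) :=
          dvd_trans (Finset.dvd_prod_of_mem (fun i => X - C (y i)) hi) hR0
        rw [dvd_iff_isRoot] at h5
        simp only [IsRoot.def, eval_sub, eval_pow, eval_X, ZMod.pow_card] at h5 ⊢
        linear_combination -h5
      · omega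
    have h5 := natDegree_sub_le ρ X
    rw [natDegree_X] at h5
    omega
  refine ⟨by omega, ?_⟩
  have hder : derivative (X ^ p - ρ) = - derivative ρ := by
    simp [derivative_X_pow]
  have hρ' : derivative ρ ≠ 0 := by
    intro h
    have h4 := congrArg (fun q => q.coeff (ρ.natDegree - 1)) h
    simp only [coeff_derivative, coeff_zero] at h4
    have h5 : ρ.natDegree - 1 + 1 = ρ.natDegree := by omega
    have h6 : ρ ≠ 0 := by intro h; rw [h, natDegree_zero] at hr; omega
    rw [h5] at h4
    have h7 : ρ.coeff ρ.natDegree ≠ 0 := leadingCoeff_ne_zero.mpr h6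
    have h8 : (((ρ.natDegree - 1 : ℕ) : ZMod p) + 1) = ((ρ.natDegree : ℕ) : ZMod p) := by
      conv_rhs => rw [← h5]
      push_cast; ring
    rw [h8] at h4
    rcases mul_eq_zero.mp h4 with h9 | h9
    · exact h7 h9
    · rw [ZMod.natCast_eq_zero_iff] at h9
      have := Nat.le_of_dvd (by omega) h9
      have : ρ.natDegree < s.card := hPd 0
      omega
  have hdvd : (∏ v ∈ s.image y, (X - C v) ^ ((s.filter (fun i => y i = v)).card - 1)) ∣
      derivative ρ := by
    apply Finset.prod_dvd_of_coprime
    · intro v _ w _ hvw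
      exact (isCoprime_X_sub_C_of_isUnit_sub (sub_ne_zero.mpr hvw).isUnit).pow
    · intro v _
      have := pow_sub_one_dvd_derivative_of_pow_dvd (hpow v)
      rwa [hder, dvd_neg] at this
  have h4 := natDegree_le_of_dvd hdvd hρ'
  rw [natDegree_prod_of_monic _ _ (fun v _ => (monic_X_sub_C v).pow _)] at h4
  simp only [natDegree_pow, natDegree_X_sub_C, mul_one] at h4
  have h5 : ∑ v ∈ s.image y, (s.filter (fun i => y i = v)).card = s.card :=
    (Finset.card_eq_sum_card_image y s).symm
  have h6 : ∑ v ∈ s.image y, ((s.filter (fun i => y i = v)).card - 1) + (s.image y).card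
      = s.card := by
    rw [← h5, Finset.card_eq_sum_ones (s.image y), ← Finset.sum_add_distrib]
    apply Finset.sum_congr rfl
    intro v hv
    obtain ⟨i, hi, rfl⟩ := Finset.mem_image.mp hv
    have : 0 < (s.filter (fun k => y k = y i)).card := Finset.card_pos.mpr ⟨i, by simpa using hi⟩
    omega
  have h7 := natDegree_derivative_le ρ
  omega

end Core

section Plane
variable {p : ℕ} [Fact p.Prime] {E : Type*} [AddCommGroup E] [Module (ZMod p) E]

open Classical in
/-- the set of directions determined by a finite point set -/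
noncomputable def dirs (p : ℕ) [Fact p.Prime] {E : Type*} [AddCommGroup E] [Module (ZMod p) E]
    (A : Finset E) : Finset (Submodule (ZMod p) E) :=
  A.offDiag.image (fun ab => Submodule.span (ZMod p) {ab.1 - ab.2})

lemma mem_dirs {A : Finset E} {W : Submodule (ZMod p) E} :
    W ∈ dirs p A ↔ ∃ a ∈ A, ∃ b ∈ A, a ≠ b ∧ W = Submodule.span (ZMod p) {a - b} := by
  classical
  unfold dirs
  simp only [Finset.mem_image, Finset.mem_offDiag, Prod.exists]
  constructor
  · rintro ⟨a, b, ⟨ha, hb, hab⟩, rfl⟩
    exact ⟨a, ha, b, hb, hab, rfl⟩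
  · rintro ⟨a, ha, b, hb, hab, rfl⟩
    exact ⟨a, b, ⟨ha, hb, hab⟩, rfl⟩

/-- refined Szonyi bound -/
lemma szonyi (s : Finset E) (hs : s.card ≤ p) (f g : E →ₗ[ZMod p] ZMod p)
    (hfg : ∀ a ∈ s, ∀ b ∈ s, f a = f b → g a = g b → a = b)
    (hni : ¬ Set.InjOn f s) (hnc : ∃ i ∈ s, ∃ j ∈ s, f i ≠ f j) :
    (s.image f).card + 1 ≤ (dirs p s).card ∧ s.card + 2 ≤ (dirs p s).card + (s.image f).card := by
  classical
  obtain ⟨a1, ha1, b1, hb1, h1⟩ := hnc
  have h1' : f a1 - f b1 ≠ 0 := sub_ne_zero.mpr h1
  set κ : ZMod p := (g a1 - g b1) / (f a1 - f b1) with hκ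
  set x : E → ZMod p := fun a => g a - κ * f a with hx
  have hx1 : x a1 = x b1 := by
    simp only [hx, hκ]; field_simp; ring
  have hxs : ∀ (c : ZMod p) (a b : E), x (c • (a - b)) = c * (x a - x b) := by
    intro c a b; simp only [hx, map_smul, map_sub, smul_eq_mul]; ring
  set U : Finset (ZMod p) := Finset.univ.filter (fun t => Set.InjOn (fun i => f i - t * x i) s)
    with hU
  have hc := core s x f hs U (fun t ht => (Finset.mem_filter.mp ht).2) hni ⟨a1, ha1, b1, hb1, h1⟩
  have hW1 : Submodule.span (ZMod p) {a1 - b1} ∈ dirs p s :=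
    mem_dirs.mpr ⟨a1, ha1, b1, hb1, fun h => h1 (by rw [h]), rfl⟩
  have hle : (Finset.univ \ U).card ≤ ((dirs p s).erase (Submodule.span (ZMod p) {a1 - b1})).card := by
    apply Finset.card_le_card_of_forall_subsingleton
      (fun (t : ZMod p) (W : Submodule (ZMod p) E) => ∃ w ∈ W, x w ≠ 0 ∧ f w = t * x w)
    · intro t ht
      have ht' : ¬ Set.InjOn (fun i => f i - t * x i) s := by
        simpa [hU] using ht
      simp only [Set.InjOn, not_forall] at ht'
      obtain ⟨a, ha, b, hb, hab, hne⟩ := ht'
      have hxab : x a - x b ≠ 0 := by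
        intro h
        have h2 : x a = x b := sub_eq_zero.mp h
        have h3 : f a = f b := by
          simp only [h2] at hab; linear_combination hab
        apply hne
        apply hfg a ha b hb h3
        simp only [hx, h3] at h2; linear_combination h2
      have e1 : x (a - b) = x a - x b := by simpa using hxs 1 a b
      refine ⟨Submodule.span (ZMod p) {a - b}, ?_, a - b, Submodule.mem_span_singleton_self _,
        by rwa [e1], ?_⟩
      · rw [Finset.mem_erase]
        refine ⟨?_, mem_dirs.mpr ⟨a, ha, b, hb, hne, rfl⟩⟩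
        intro h
        have : a - b ∈ Submodule.span (ZMod p) {a1 - b1} := by
          rw [← h]; exact Submodule.mem_span_singleton_self _
        obtain ⟨c, hc⟩ := Submodule.mem_span_singleton.mp this
        apply hxab
        rw [← e1, ← hc, hxs, hx1]; ring
      · rw [e1, map_sub]; linear_combination hab
    · intro W hW t ht t' ht'
      obtain ⟨a, ha, b, hb, hab, rfl⟩ := mem_dirs.mp (Finset.mem_of_mem_erase hW)
      obtain ⟨-, w, hw, hw1, hw2⟩ := ht
      obtain ⟨-, w', hw', hw1', hw2'⟩ := ht'
      obtain ⟨c, rfl⟩ := Submodule.mem_span_singleton.mp hw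
      obtain ⟨c', rfl⟩ := Submodule.mem_span_singleton.mp hw'
      rw [hxs] at hw1 hw2 hw1' hw2'
      rw [map_smul, smul_eq_mul] at hw2 hw2'
      have hc0 : c ≠ 0 := left_ne_zero_of_mul hw1
      have hc0' : c' ≠ 0 := left_ne_zero_of_mul hw1'
      have hd0 : x a - x b ≠ 0 := right_ne_zero_of_mul hw1
      have e1 : f (a - b) = t * (x a - x b) := by
        apply mul_left_cancel₀ hc0; linear_combination hw2
      have e2 : f (a - b) = t' * (x a - x b) := by
        apply mul_left_cancel₀ hc0'; linear_combination hw2'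
      apply mul_right_cancel₀ hd0
      rw [← e1, ← e2]
  rw [Finset.card_erase_of_mem hW1, Finset.card_univ_sdiff, ZMod.card] at hle
  have hpos : 0 < (dirs p s).card := Finset.card_pos.mpr ⟨_, hW1⟩
  omega

end Plane

end Pool.Agent.H603Z.Dir
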