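import Mathlib
import Pool.Agent.H603Z.Dir.Szonyi

set_option autoImplicit false

namespace Pool.Agent.H603Z.Dir

section Comb

lemma card_image_fiber {α β γ : Type*} [DecidableEq β] [DecidableEq γ] (A : Finset α)
    (q : α → β) (h : α → γ) (hq : ∀ a ∈ A, ∀ b ∈ A, q a = q b → h a = h b) :
    (A.image q).card = ∑ c ∈ A.image h, ((A.filter (fun a => h a = c)).image q).card := by
  classical
  rw [← Finset.card_biUnion]
  · congr 1
    ext z
    simp only [Finset.mem_image, Finset.mem_biUnion, Finset.mem_filter]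
    constructor
    · rintro ⟨a, ha, rfl⟩
      exact ⟨h a, ⟨a, ha, rfl⟩, a, ⟨ha, rfl⟩, rfl⟩
    · rintro ⟨c, -, a, ⟨ha, -⟩, rfl⟩
      exact ⟨a, ha, rfl⟩
  · intro c _ c' _ hcc
    simp only [Function.onFun]
    rw [Finset.disjoint_left]
    intro z hz hz'
    simp only [Finset.mem_image, Finset.mem_filter] at hz hz'
    obtain ⟨a, ⟨ha, rfl⟩, rfl⟩ := hz
    obtain ⟨b, ⟨hb, rfl⟩, hab⟩ := hz'
    exact hcc (hq a ha b hb hab.symm)

lemma two_maps {α β γ : Type*} [DecidableEq β] [DecidableEq γ] (S : Finset α) (hS : S.Nonempty)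
    (π : α → β) (q : α → γ) (h1 : ∀ a ∈ S, ∀ b ∈ S, π a = π b ∨ q a = q b)
    (h2 : ∀ a ∈ S, ∀ b ∈ S, π a = π b → q a = q b → a = b) :
    S.card + 1 ≤ (S.image π).card + (S.image q).card := by
  have p1 : 0 < (S.image π).card := Finset.card_pos.mpr (hS.image _)
  have p2 : 0 < (S.image q).card := Finset.card_pos.mpr (hS.image _)
  by_cases hc : ∀ a ∈ S, ∀ b ∈ S, π a = π b
  · have : (S.image q).card = S.card :=
      Finset.card_image_of_injOn (fun a ha b hb h => h2 a ha b hb (hc a ha b hb) h)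
    omega
  · push Not at hc
    obtain ⟨a, ha, b, hb, hab⟩ := hc
    have hq : ∀ z ∈ S, q z = q a := by
      intro z hz
      have hab' : q a = q b := (h1 a ha b hb).resolve_left hab
      by_cases hza : π z = π a
      · have : π z ≠ π b := by rw [hza]; exact hab
        rw [hab']; exact (h1 z hz b hb).resolve_left this
      · exact (h1 z hz a ha).resolve_left hza
    have : (S.image π).card = S.card :=
      Finset.card_image_of_injOn
        (fun z hz w hw h => h2 z hz w hw h ((hq z hz).trans (hq w hw).symm))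
    omega

end Comb

section Lin
variable {F : Type*} [Field F]

lemma exists_fun (w : F × F) (hw : w ≠ 0) :
    ∃ f g : (F × F) →ₗ[F] F, (∀ z, f z = 0 ↔ z ∈ Submodule.span F {w}) ∧ g w ≠ 0 ∧ f ≠ 0 := by
  classical
  refine ⟨w.2 • LinearMap.fst F F F - w.1 • LinearMap.snd F F F,
    if w.1 = 0 then LinearMap.snd F F F else LinearMap.fst F F F, ?_, ?_, ?_⟩
  · intro z
    rw [Submodule.mem_span_singleton]
    simp only [LinearMap.sub_apply, LinearMap.smul_apply, LinearMap.fst_apply,
      LinearMap.snd_apply, smul_eq_mul]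
    constructor
    · intro h
      by_cases h1 : w.1 = 0
      · have h2 : w.2 ≠ 0 := fun h2 => hw (Prod.ext h1 h2)
        refine ⟨z.2 / w.2, Prod.ext ?_ ?_⟩
        · simp only [Prod.smul_fst, smul_eq_mul]; field_simp; linear_combination -h
        · simp only [Prod.smul_snd, smul_eq_mul]; field_simp
      · refine ⟨z.1 / w.1, Prod.ext ?_ ?_⟩
        · simp only [Prod.smul_fst, smul_eq_mul]; field_simp
        · simp only [Prod.smul_snd, smul_eq_mul]; field_simp; linear_combination h
    · rintro ⟨c, rfl⟩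
      simp only [Prod.smul_fst, Prod.smul_snd, smul_eq_mul]; ring
  · split_ifs with h1
    · exact fun h2 => hw (Prod.ext h1 h2)
    · exact h1
  · intro h
    have h1 := congrArg (fun φ : (F × F) →ₗ[F] F => φ (1, 0)) h
    have h2 := congrArg (fun φ : (F × F) →ₗ[F] F => φ (0, 1)) h
    simp at h1 h2
    exact hw (Prod.ext h2 h1)

lemma span_eq_of_mem {E : Type*} [AddCommGroup E] [Module F E] {u v : E} (hv : v ≠ 0)
    (h : v ∈ Submodule.span F {u}) : Submodule.span F {v} = Submodule.span F {u} := by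
  obtain ⟨c, rfl⟩ := Submodule.mem_span_singleton.mp h
  have hc : c ≠ 0 := by rintro rfl; simp at hv
  exact Submodule.span_singleton_smul_eq hc.isUnit u

end Lin

section Main
variable {p : ℕ} [Fact p.Prime] {V : Type*} [AddCommGroup V] [Module (ZMod p) V]

/-- bounds for one plane through the line of the chosen direction -/
lemma plane_bound [DecidableEq V] (A : Finset V) (hA : A.card = p)
    (π : V →ₗ[ZMod p] (ZMod p × ZMod p)) (γ : V →ₗ[ZMod p] ZMod p)
    (a0 b0 : V) (ha0 : a0 ∈ A) (hb0 : b0 ∈ A) (hab : a0 ≠ b0)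
    (hker : ∀ v, π v = 0 ↔ v ∈ Submodule.span (ZMod p) {a0 - b0}) (hγ : γ (a0 - b0) ≠ 0)
    (y : Submodule (ZMod p) (ZMod p × ZMod p)) (a1 : V) (ha1 : a1 ∈ A) (h1 : π a1 ≠ π a0)
    (hy : y = Submodule.span (ZMod p) {π a1 - π a0})
    (By : Finset (ZMod p × ZMod p)) (Ay M : Finset V)
    (Fib : Finset (Submodule (ZMod p) V))
    (hBy : ∀ b, b ∈ By ↔ (∃ a ∈ A, π a = b) ∧ b ≠ π a0 ∧ Submodule.span (ZMod p) {b - π a0} = y)
    (hAy : ∀ a, a ∈ Ay ↔ a ∈ A ∧ π a ≠ π a0 ∧ Submodule.span (ZMod p) {π a - π a0} = y)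
    (hM : ∀ a, a ∈ M ↔ a ∈ A ∧ π a = π a0)
    (hFib : ∀ W, W ∈ dirs p A → W ≠ Submodule.span (ZMod p) {a0 - b0} → W.map π = y → W ∈ Fib) :
    By.card + 1 ≤ Fib.card ∧ Ay.card + M.card ≤ Fib.card + By.card := by
  classical
  have hw : π a1 - π a0 ≠ 0 := sub_ne_zero.mpr h1
  obtain ⟨f, g, hf, hg, -⟩ := exists_fun (π a1 - π a0) hw
  have hdisj : Disjoint Ay M := by
    rw [Finset.disjoint_left]
    intro a ha ha'
    exact ((hAy a).mp ha).2.1 ((hM a).mp ha').2
  set C := Ay ∪ M with hC
  have hCA : C ⊆ A := by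
    intro a ha
    rcases Finset.mem_union.mp ha with h | h
    · exact ((hAy a).mp h).1
    · exact ((hM a).mp h).1
  have hCy : ∀ a ∈ C, π a - π a0 ∈ y := by
    intro a ha
    rcases Finset.mem_union.mp ha with h | h
    · rw [← ((hAy a).mp h).2.2]; exact Submodule.mem_span_singleton_self _
    · rw [((hM a).mp h).2]; simp
  have hCy2 : ∀ a ∈ C, ∀ b ∈ C, π a - π b ∈ y := by
    intro a ha b hb
    have := y.sub_mem (hCy a ha) (hCy b hb)
    simpa using this
  have hginj : ∀ z ∈ y, g z = 0 → z = 0 := by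
    intro z hz h
    rw [hy] at hz
    obtain ⟨c, rfl⟩ := Submodule.mem_span_singleton.mp hz
    rw [map_smul, smul_eq_mul] at h
    rcases mul_eq_zero.mp h with h | h
    · rw [h, zero_smul]
    · exact absurd h hg
  have hgπ : ∀ a ∈ C, ∀ b ∈ C, g (π a) = g (π b) → π a = π b := by
    intro a ha b hb h
    have := hginj _ (hCy2 a ha b hb) (by rw [map_sub, h, sub_self])
    exact sub_eq_zero.mp this
  have ha0C : a0 ∈ C := Finset.mem_union_right _ ((hM a0).mpr ⟨ha0, rfl⟩)
  have hπb0 : π b0 = π a0 := by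
    have := (hker (a0 - b0)).mpr (Submodule.mem_span_singleton_self _)
    rw [map_sub] at this
    exact (sub_eq_zero.mp this).symm
  have hb0C : b0 ∈ C := Finset.mem_union_right _ ((hM b0).mpr ⟨hb0, hπb0⟩)
  have ha1C : a1 ∈ C := Finset.mem_union_left _ ((hAy a1).mpr ⟨ha1, h1, hy.symm⟩)
  have hsz := szonyi C (by rw [← hA]; exact Finset.card_le_card hCA) (g.comp π) γ
    (by
      intro a ha b hb h h'
      have e := hgπ a ha b hb h
      have e2 : a - b ∈ Submodule.span (ZMod p) {a0 - b0} := by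
        rw [← hker, map_sub, e, sub_self]
      obtain ⟨c, hc⟩ := Submodule.mem_span_singleton.mp e2
      have e3 : γ (c • (a0 - b0)) = 0 := by rw [hc, map_sub, h', sub_self]
      rw [map_smul, smul_eq_mul] at e3
      rcases mul_eq_zero.mp e3 with e4 | e4
      · rw [e4, zero_smul] at hc; exact sub_eq_zero.mp hc.symm
      · exact absurd e4 hγ)
    (by
      intro h
      apply hab
      apply h ha0C hb0C
      simp [hπb0])
    ⟨a1, ha1C, a0, ha0C, fun h => h1 (hgπ a1 ha1C a0 ha0C h)⟩
  have hr : (C.image (g.comp π)).card = By.card + 1 := by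
    have e1 : C.image (g.comp π) = (C.image π).image g := by
      rw [Finset.image_image]; rfl
    have e2 : C.image π = insert (π a0) By := by
      ext b
      simp only [Finset.mem_image, Finset.mem_insert, hBy]
      constructor
      · rintro ⟨a, ha, rfl⟩
        rcases Finset.mem_union.mp ha with h | h
        · right
          obtain ⟨k1, k2, k3⟩ := (hAy a).mp h
          exact ⟨⟨a, k1, rfl⟩, k2, k3⟩
        · left; exact ((hM a).mp h).2
      · rintro (rfl | ⟨⟨a, ha, rfl⟩, k2, k3⟩)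
        · exact ⟨a0, ha0C, rfl⟩
        · exact ⟨a, Finset.mem_union_left _ ((hAy a).mpr ⟨ha, k2, k3⟩), rfl⟩
    rw [e1, Finset.card_image_of_injOn, e2, Finset.card_insert_of_notMem]
    · intro h; exact ((hBy _).mp h).2.1 rfl
    · intro z hz w hw' h
      obtain ⟨a, ha, rfl⟩ := Finset.mem_image.mp hz
      obtain ⟨b, hb, rfl⟩ := Finset.mem_image.mp hw'
      exact hgπ a ha b hb h
  have hD : (dirs p C).card ≤ Fib.card + 1 := by
    refine le_trans (Finset.card_le_card ?_)
      (Finset.card_insert_le (Submodule.span (ZMod p) {a0 - b0}) Fib)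
    intro W hW
    obtain ⟨a, ha, b, hb, hne, rfl⟩ := mem_dirs.mp hW
    rw [Finset.mem_insert]
    by_cases h : Submodule.span (ZMod p) {a - b} = Submodule.span (ZMod p) {a0 - b0}
    · exact Or.inl h
    · right
      apply hFib _ (mem_dirs.mpr ⟨a, hCA ha, b, hCA hb, hne, rfl⟩) h
      rw [Submodule.map_span, Set.image_singleton, map_sub, hy]
      apply span_eq_of_mem
      · intro h0
        apply h
        apply span_eq_of_mem (sub_ne_zero.mpr hne)
        rw [← hker, map_sub, h0]
      · rw [← hy]; exact hCy2 a ha b hb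
  have hCc : C.card = Ay.card + M.card := Finset.card_union_of_disjoint hdisj
  omega

theorem main_abs (A : Finset V) (hA : A.card = p) (h3 : Module.finrank (ZMod p) V = 3)
    (hnp : ∀ h : V →ₗ[ZMod p] ZMod p, h ≠ 0 → ∃ a ∈ A, ∃ b ∈ A, h a ≠ h b) :
    p + 2 ≤ (dirs p A).card := by
  classical
  have : Module.Finite (ZMod p) V := Module.finite_of_finrank_pos (by omega)
  have hfun : ∀ v : V, v ≠ 0 → ∃ γ : V →ₗ[ZMod p] ZMod p, γ v ≠ 0 := by
    intro v hv
    obtain ⟨γ, hγ⟩ := Module.Projective.exists_dual_ne_zero (ZMod p) hv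
    exact ⟨γ, hγ⟩
  have hDne : (dirs p A).Nonempty := by
    have : Nontrivial V := Module.nontrivial_of_finrank_pos (R := ZMod p) (by omega)
    obtain ⟨v, hv⟩ := exists_ne (0 : V)
    obtain ⟨γ, hγ⟩ := hfun v hv
    obtain ⟨a, ha, b, hb, hab⟩ := hnp γ (by rintro rfl; simp at hγ)
    exact ⟨_, mem_dirs.mpr ⟨a, ha, b, hb, fun h => hab (by rw [h]), rfl⟩⟩
  obtain ⟨W0, hW0, hmax⟩ := Finset.exists_max_image (dirs p A)
    (fun W => (A.image W.mkQ).card) hDne
  obtain ⟨a0, ha0, b0, hb0, hab0, hW0e⟩ := mem_dirs.mp hW0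
  have hu : a0 - b0 ≠ 0 := sub_ne_zero.mpr hab0
  have hq : Module.finrank (ZMod p) (V ⧸ W0) = Module.finrank (ZMod p) (ZMod p × ZMod p) := by
    have e1 := Submodule.finrank_quotient_add_finrank W0
    have e2 : Module.finrank (ZMod p) W0 = 1 := by rw [hW0e]; exact finrank_span_singleton hu
    have e3 : Module.finrank (ZMod p) (ZMod p × ZMod p) = 2 := by simp
    omega
  obtain ⟨e⟩ := FiniteDimensional.nonempty_linearEquiv_of_finrank_eq hq
  set π : V →ₗ[ZMod p] (ZMod p × ZMod p) := e.toLinearMap.comp W0.mkQ with hπ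
  have hker : ∀ v, π v = 0 ↔ v ∈ Submodule.span (ZMod p) {a0 - b0} := by
    intro v
    rw [← hW0e, hπ]
    simp
  have hsurj : Function.Surjective π := e.surjective.comp (Submodule.mkQ_surjective W0)
  obtain ⟨γ, hγ⟩ := hfun _ hu
  set B := A.image π with hB
  have hn : B.card = (A.image W0.mkQ).card := by
    have : B = (A.image W0.mkQ).image e := by
      rw [hB, Finset.image_image]; rfl
    rw [this, Finset.card_image_of_injective _ e.injective]
  have hBp : B.card ≤ p := le_trans Finset.card_image_le hA.le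
  set D' := (dirs p A).erase W0 with hD'
  set fib : Submodule (ZMod p) (ZMod p × ZMod p) → Finset (Submodule (ZMod p) V) :=
    fun y => D'.filter (fun W => W.map π = y) with hfib
  have hπne : ∀ a b : V, a ≠ b → Submodule.span (ZMod p) {a - b} ≠ W0 → π a ≠ π b := by
    intro a b hab h h0
    apply h
    rw [hW0e]
    apply span_eq_of_mem (sub_ne_zero.mpr hab)
    rw [← hker, map_sub, h0, sub_self]
  have hπne' : ∀ a b : V, π a ≠ π b → Submodule.span (ZMod p) {a - b} ≠ W0 := by
    intro a b h h0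
    apply h
    have : a - b ∈ Submodule.span (ZMod p) {a0 - b0} := by
      rw [← hW0e, ← h0]; exact Submodule.mem_span_singleton_self _
    rw [← hker, map_sub] at this
    exact sub_eq_zero.mp this
  have hmapspan : ∀ a b : V, (Submodule.span (ZMod p) {a - b}).map π =
      Submodule.span (ZMod p) {π a - π b} := by
    intro a b
    rw [Submodule.map_span, Set.image_singleton, map_sub]
  have hT : D'.card = ∑ y ∈ dirs p B, (fib y).card := by
    apply Finset.card_eq_sum_card_fiberwise
    intro W hW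
    obtain ⟨hW1, hW2⟩ := Finset.mem_erase.mp hW
    obtain ⟨a, ha, b, hb, hab, rfl⟩ := mem_dirs.mp hW2
    exact mem_dirs.mpr ⟨π a, Finset.mem_image_of_mem _ ha, π b, Finset.mem_image_of_mem _ hb,
      hπne a b hab hW1, hmapspan a b⟩
  have hfib1 : ∀ y ∈ dirs p B, 1 ≤ (fib y).card := by
    intro y hy
    obtain ⟨z, hz, w, hw, hzw, rfl⟩ := mem_dirs.mp hy
    obtain ⟨a, ha, rfl⟩ := Finset.mem_image.mp hz
    obtain ⟨b, hb, rfl⟩ := Finset.mem_image.mp hw
    apply Finset.card_pos.mpr
    refine ⟨Submodule.span (ZMod p) {a - b}, Finset.mem_filter.mpr ⟨Finset.mem_erase.mpr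
      ⟨hπne' a b hzw, mem_dirs.mpr ⟨a, ha, b, hb, fun h => hzw (by rw [h]), rfl⟩⟩, hmapspan a b⟩⟩
  set s := π a0 with hs
  have hsB : s ∈ B := Finset.mem_image_of_mem _ ha0
  set Y := (B.erase s).image (fun b => Submodule.span (ZMod p) {b - s}) with hY
  have hYB : Y ⊆ dirs p B := by
    intro y hy
    obtain ⟨b, hb, rfl⟩ := Finset.mem_image.mp hy
    obtain ⟨h1, h2⟩ := Finset.mem_erase.mp hb
    exact mem_dirs.mpr ⟨b, h2, s, hsB, h1, rfl⟩
  set By : Submodule (ZMod p) (ZMod p × ZMod p) → Finset (ZMod p × ZMod p) :=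
    fun y => (B.erase s).filter (fun b => Submodule.span (ZMod p) {b - s} = y) with hBy
  set A' := A.filter (fun a => π a ≠ s) with hA'
  set M := A.filter (fun a => π a = s) with hM
  set Ay : Submodule (ZMod p) (ZMod p × ZMod p) → Finset V :=
    fun y => A'.filter (fun a => Submodule.span (ZMod p) {π a - s} = y) with hAy
  have hsumB : (B.erase s).card = ∑ y ∈ Y, (By y).card := by
    apply Finset.card_eq_sum_card_fiberwise
    intro b hb
    exact Finset.mem_image_of_mem _ hb
  have hsumA : A'.card = ∑ y ∈ Y, (Ay y).card := by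
    apply Finset.card_eq_sum_card_fiberwise
    intro a ha
    obtain ⟨h1, h2⟩ := Finset.mem_filter.mp ha
    exact Finset.mem_image.mpr ⟨π a, Finset.mem_erase.mpr ⟨h2, Finset.mem_image_of_mem _ h1⟩, rfl⟩
  have hAM : M.card + A'.card = p := by
    rw [← hA, hM, hA']
    exact Finset.card_filter_add_card_filter_not _
  have hM2 : 2 ≤ M.card := by
    rw [Nat.succ_le_iff, Finset.one_lt_card]
    refine ⟨a0, Finset.mem_filter.mpr ⟨ha0, rfl⟩, b0, Finset.mem_filter.mpr ⟨hb0, ?_⟩, hab0⟩
    have := (hker (a0 - b0)).mpr (Submodule.mem_span_singleton_self _)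
    rw [map_sub] at this
    exact (sub_eq_zero.mp this).symm
  have hBe : (B.erase s).card + 1 = B.card := Finset.card_erase_add_one hsB
  have hplane : ∀ y ∈ Y, (By y).card + 1 ≤ (fib y).card ∧
      (Ay y).card + M.card ≤ (fib y).card + (By y).card := by
    intro y hy
    obtain ⟨b, hb, hyb⟩ := Finset.mem_image.mp hy
    obtain ⟨h1, h2⟩ := Finset.mem_erase.mp hb
    obtain ⟨a1, ha1, rfl⟩ := Finset.mem_image.mp h2
    apply plane_bound A hA π γ a0 b0 ha0 hb0 hab0 hker hγ y a1 ha1 h1 hyb.symm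
    · intro b
      simp only [hBy, Finset.mem_filter, Finset.mem_erase, hB, Finset.mem_image]
      tauto
    · intro a
      simp only [hAy, hA', Finset.mem_filter]
      tauto
    · intro a
      simp only [hM, Finset.mem_filter, hs]
    · intro W h3 h4 h5
      exact Finset.mem_filter.mpr ⟨Finset.mem_erase.mpr ⟨by rwa [hW0e], h3⟩, h5⟩
  -- planar bound for the projection
  have hproj : ∀ y ∈ dirs p B, ∃ f : (ZMod p × ZMod p) →ₗ[ZMod p] ZMod p,
      (∀ z, f z = 0 ↔ z ∈ y) ∧ (B.image f).card + 1 ≤ (dirs p B).card ∧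
        B.card + 2 ≤ (dirs p B).card + (B.image f).card := by
    intro y hy
    obtain ⟨z, hz, w, hw, hzw, rfl⟩ := mem_dirs.mp hy
    obtain ⟨f, g, hf, hg, hf0⟩ := exists_fun (z - w) (sub_ne_zero.mpr hzw)
    refine ⟨f, hf, szonyi B hBp f g ?_ ?_ ?_⟩
    · intro a _ b _ h1 h2
      have : a - b ∈ Submodule.span (ZMod p) {z - w} := by rw [← hf, map_sub, h1, sub_self]
      obtain ⟨c, hc⟩ := Submodule.mem_span_singleton.mp this
      have e3 : g (c • (z - w)) = 0 := by rw [hc, map_sub, h2, sub_self]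
      rw [map_smul, smul_eq_mul] at e3
      rcases mul_eq_zero.mp e3 with e4 | e4
      · rw [e4, zero_smul] at hc; exact sub_eq_zero.mp hc.symm
      · exact absurd e4 hg
    · intro h
      apply hzw
      apply h hz hw
      have := (hf (z - w)).mpr (Submodule.mem_span_singleton_self _)
      rw [map_sub] at this
      exact sub_eq_zero.mp this
    · obtain ⟨a, ha, b, hb, hab⟩ := hnp (f.comp π) (by
        intro h
        apply hf0
        ext1 <;> ext1
        · obtain ⟨v, hv⟩ := hsurj (1, 0)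
          have := congrArg (fun φ : V →ₗ[ZMod p] ZMod p => φ v) h
          simpa [hv] using this
        · obtain ⟨v, hv⟩ := hsurj (0, 1)
          have := congrArg (fun φ : V →ₗ[ZMod p] ZMod p => φ v) h
          simpa [hv] using this)
      exact ⟨π a, Finset.mem_image_of_mem _ ha, π b, Finset.mem_image_of_mem _ hb, hab⟩
  have hYne : Y.Nonempty := by
    obtain ⟨v, hv⟩ := hsurj (1, 0)
    obtain ⟨a, ha, b, hb, hab⟩ := hnp ((LinearMap.fst (ZMod p) (ZMod p) (ZMod p)).comp π) (by
      intro h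
      have := congrArg (fun φ : V →ₗ[ZMod p] ZMod p => φ v) h
      simp [hv] at this)
    have hab' : π a ≠ π b := fun h => hab (by simp [h])
    by_cases h : π a = s
    · exact ⟨_, Finset.mem_image_of_mem _ (Finset.mem_erase.mpr
        ⟨by rw [← h]; exact hab'.symm, Finset.mem_image_of_mem _ hb⟩)⟩
    · exact ⟨_, Finset.mem_image_of_mem _ (Finset.mem_erase.mpr
        ⟨h, Finset.mem_image_of_mem _ ha⟩)⟩
  have hYpos : 1 ≤ Y.card := Finset.card_pos.mpr hYne
  have hsplit : ∑ y ∈ dirs p B \ Y, (fib y).card + ∑ y ∈ Y, (fib y).card =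
      ∑ y ∈ dirs p B, (fib y).card := Finset.sum_sdiff hYB
  have hcs : (dirs p B \ Y).card + Y.card = (dirs p B).card := Finset.card_sdiff_add_card_eq_card hYB
  have hDD : D'.card + 1 = (dirs p A).card := Finset.card_erase_add_one hW0
  by_cases hcase : ∀ y ∈ dirs p B, 2 ≤ (fib y).card
  · have h1 : ∑ y ∈ dirs p B \ Y, 2 ≤ ∑ y ∈ dirs p B \ Y, (fib y).card :=
      Finset.sum_le_sum (fun y hy => hcase y (Finset.mem_sdiff.mp hy).1)
    have h2 : ∑ y ∈ Y, ((Ay y).card + M.card) ≤ ∑ y ∈ Y, ((fib y).card + (By y).card) :=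
      Finset.sum_le_sum (fun y hy => (hplane y hy).2)
    rw [Finset.sum_add_distrib, Finset.sum_add_distrib, ← hsumA, ← hsumB] at h2
    simp only [Finset.sum_const, smul_eq_mul] at h1 h2
    obtain ⟨y, hy⟩ := hYne
    obtain ⟨f, -, hf1, hf2⟩ := hproj y (hYB hy)
    have h4 : (Y.card - 1) * 2 ≤ (Y.card - 1) * M.card := Nat.mul_le_mul_left _ hM2
    have h5 : Y.card * M.card = (Y.card - 1) * M.card + M.card := by
      obtain ⟨k, hk⟩ : ∃ k, Y.card = k + 1 := ⟨Y.card - 1, by omega⟩
      rw [hk]; simp; ring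
    omega
  · push Not at hcase
    obtain ⟨y, hy, hy1⟩ := hcase
    have hy2 : (fib y).card = 1 := by have := hfib1 y hy; omega
    obtain ⟨W', hW'⟩ := Finset.card_eq_one.mp hy2
    have hW'm : W' ∈ fib y := by rw [hW']; exact Finset.mem_singleton_self _
    obtain ⟨hW'1, hW'2⟩ := Finset.mem_filter.mp hW'm
    obtain ⟨hW'3, hW'4⟩ := Finset.mem_erase.mp hW'1
    obtain ⟨f, hf, -, hf2⟩ := hproj y hy
    have hmax' : (A.image W'.mkQ).card ≤ B.card := by rw [hn]; exact hmax W' hW'4
    have hqeq : ∀ a b : V, W'.mkQ a = W'.mkQ b ↔ a - b ∈ W' := by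
      intro a b
      simp only [Submodule.mkQ_apply]
      exact Submodule.Quotient.eq W'
    have c1 := card_image_fiber A π (fun a => f (π a)) (fun a _ b _ h => by rw [h])
    have c2 := card_image_fiber A W'.mkQ (fun a => f (π a)) (fun a _ b _ h => by
      have h1 : π (a - b) ∈ y := by
        rw [← hW'2]; exact Submodule.mem_map_of_mem ((hqeq a b).mp h)
      rw [← hf, map_sub, map_sub] at h1
      exact sub_eq_zero.mp h1)
    have c3 := Finset.card_eq_sum_card_image (fun a => f (π a)) A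
    have c4 : ∑ c ∈ A.image (fun a => f (π a)), ((A.filter (fun a => f (π a) = c)).card + 1) ≤
        ∑ c ∈ A.image (fun a => f (π a)), (((A.filter (fun a => f (π a) = c)).image π).card +
          ((A.filter (fun a => f (π a) = c)).image W'.mkQ).card) := by
      apply Finset.sum_le_sum
      intro c hc
      obtain ⟨a2, ha2, hc2⟩ := Finset.mem_image.mp hc
      apply two_maps _ ⟨a2, Finset.mem_filter.mpr ⟨ha2, hc2⟩⟩
      · intro a ha b hb
        obtain ⟨ha1, ha3⟩ := Finset.mem_filter.mp ha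
        obtain ⟨hb1, hb3⟩ := Finset.mem_filter.mp hb
        by_cases h : π a = π b
        · exact Or.inl h
        · right
          have hmem : Submodule.span (ZMod p) {a - b} ∈ fib y := by
            refine Finset.mem_filter.mpr ⟨Finset.mem_erase.mpr ⟨hπne' a b h,
              mem_dirs.mpr ⟨a, ha1, b, hb1, fun h' => h (by rw [h']), rfl⟩⟩, ?_⟩
            rw [hmapspan]
            obtain ⟨z, -, w, -, -, hyzw⟩ := mem_dirs.mp hy
            rw [hyzw]
            apply span_eq_of_mem (sub_ne_zero.mpr h)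
            rw [← hyzw, ← hf, map_sub, ha3, hb3, sub_self]
          rw [hW', Finset.mem_singleton] at hmem
          rw [hqeq, ← hmem]
          exact Submodule.mem_span_singleton_self _
      · intro a _ b _ h1 h2
        by_contra hne
        apply hπne a b hne _ h1
        intro h0
        apply hW'3
        obtain ⟨z, -, w, -, -, hzw⟩ := mem_dirs.mp hW'4
        rw [← h0, hzw]
        symm
        apply span_eq_of_mem (sub_ne_zero.mpr hne)
        rw [← hzw, ← hqeq]; exact h2
    rw [Finset.sum_add_distrib, Finset.sum_add_distrib, ← c1, ← c2, ← c3] at c4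
    simp only [Finset.sum_const, smul_eq_mul, mul_one] at c4
    have c5 : B.image f = A.image (fun a => f (π a)) := by
      rw [hB, Finset.image_image]; rfl
    have h1 : ∑ y ∈ dirs p B \ Y, 1 ≤ ∑ y ∈ dirs p B \ Y, (fib y).card :=
      Finset.sum_le_sum (fun y hy => hfib1 y (Finset.mem_sdiff.mp hy).1)
    have h2 : ∑ y ∈ Y, ((By y).card + 1) ≤ ∑ y ∈ Y, (fib y).card :=
      Finset.sum_le_sum (fun y hy => (hplane y hy).1)
    rw [Finset.sum_add_distrib, ← hsumB] at h2
    simp only [Finset.sum_const, smul_eq_mul, mul_one] at h1 h2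
    rw [c5] at hf2
    rw [← hB] at c4
    omega

theorem main (p : ℕ) (hp : p.Prime) (A : Finset (Fin 3 → ZMod p)) (hA : A.card = p) :
    (∃ v : Fin 3 → ZMod p, v ≠ 0 ∧ ∃ c : ZMod p, ∀ a ∈ A, ∑ i, v i * a i = c) ∨
      p + 2 ≤ Set.ncard {W : Submodule (ZMod p) (Fin 3 → ZMod p) |
        ∃ a ∈ A, ∃ b ∈ A, a ≠ b ∧ W = Submodule.span (ZMod p) {a - b}} := by
  have : Fact p.Prime := ⟨hp⟩
  by_cases h : ∀ h : (Fin 3 → ZMod p) →ₗ[ZMod p] ZMod p, h ≠ 0 → ∃ a ∈ A, ∃ b ∈ A, h a ≠ h b
  · right
    have := main_abs A hA (by simp) h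
    have e : {W : Submodule (ZMod p) (Fin 3 → ZMod p) |
        ∃ a ∈ A, ∃ b ∈ A, a ≠ b ∧ W = Submodule.span (ZMod p) {a - b}} = ↑(dirs p A) := by
      ext W
      simp only [Set.mem_ofPred_eq, Finset.mem_coe, mem_dirs]
    rw [e, Set.ncard_coe_finset]
    exact this
  · left
    push Not at h
    obtain ⟨h, h0, hc⟩ := h
    have hAne : A.Nonempty := Finset.card_pos.mp (by rw [hA]; exact hp.pos)
    obtain ⟨a0, ha0⟩ := hAne
    have hsum : ∀ a : Fin 3 → ZMod p, ∑ i, h (Pi.single i 1) * a i = h a := by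
      intro a
      rw [LinearMap.pi_apply_eq_sum_univ h a]
      apply Finset.sum_congr rfl
      intro i _
      rw [smul_eq_mul, mul_comm]
      congr 2
      ext j
      simp [Pi.single_apply, eq_comm]
    refine ⟨fun i => h (Pi.single i 1), ?_, h a0, fun a ha => ?_⟩
    · intro hv
      apply h0
      apply LinearMap.ext
      intro a
      rw [← hsum a]
      have : ∀ i, h (Pi.single i 1) = 0 := fun i => congrFun hv i
      simp [this]
    · rw [hsum]; exact hc a ha a0 ha0

end Main

end Pool.Agent.H603Z.Dir
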